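import Pool.Agent.Run7.h601.Rsa.Slope

set_option autoImplicit false

/-!
# The generating function of a decaying solution of the homogeneous recursion
-/

namespace Pool.Agent.Run7.h601.Rsa

open Finset Filter Topology

variable {r : ℕ} {e : ℕ → ℝ} {l : ℝ}

/-- the primitive of `ε_r` -/
noncomputable def Phi (r : ℕ) (t : ℝ) : ℝ := ∫ u in (0 : ℝ)..t, eps r u

theorem hasDerivAt_Phi (r : ℕ) (t : ℝ) : HasDerivAt (Phi r) (eps r t) t :=
  ((continuous_eps r).integral_hasStrictDerivAt 0 t).hasDerivAt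

theorem low_eq (l q t : ℝ) (k : ℕ) :
    (1 - t) ^ 2 * ∑ i ∈ range k, (1 - l * (i + q)) * t ^ i =
      (1 - l * q) * (1 - t) - l * t - t ^ k * ((1 - l * (q + k)) * (1 - t) - l * t) := by
  induction k with
  | zero => simp
  | succ k ih =>
    rw [sum_range_succ, mul_add, ih, pow_succ]
    push_cast
    ring

theorem closed (hr : 0 < r)
    (h : ∀ m : ℕ, ((m : ℝ) + 1) * e (m + r) = 2 * ∑ j ∈ range (m + 1), e j)
    (hsmall : ∀ i < r, e i = 1 - l * (i + r)) {C : ℝ} (hC : 0 ≤ C)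
    (he : ∀ n, |e n| ≤ C * (1 / 4 : ℝ) ^ n) {t : ℝ} (ht0 : 0 ≤ t) (ht1 : t < 1) :
    (1 - t) ^ 2 * eps r t * ∑' n, e n * t ^ n =
      t ^ (r - 1) * Phi r t - eps r t * (l * t - (1 - l * r) * (1 - t)) := by
  -- bounds
  have hquart : Summable fun n : ℕ => C * (1 / 4 : ℝ) ^ n :=
    (summable_geometric_of_lt_one (by norm_num) (by norm_num)).mul_left C
  have habs : ∀ s : ℝ, |s| ≤ 1 → ∀ n : ℕ, ‖e n * s ^ n‖ ≤ C * (1 / 4 : ℝ) ^ n := by
    intro s hs n
    rw [norm_mul, norm_pow, Real.norm_eq_abs, Real.norm_eq_abs]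
    calc |e n| * |s| ^ n ≤ |e n| * 1 :=
          mul_le_mul_of_nonneg_left (pow_le_one₀ (abs_nonneg s) hs) (abs_nonneg _)
      _ ≤ _ := by rw [mul_one]; exact he n
  have hsumm : ∀ s : ℝ, |s| ≤ 1 → Summable fun n => ‖e n * s ^ n‖ := fun s hs =>
    Summable.of_nonneg_of_le (fun n => norm_nonneg _) (habs s hs) hquart
  -- the tail of the series
  set W : ℝ → ℝ := fun s => ∑' m : ℕ, e (m + r) * s ^ (m + 1) with hW
  have hpow2 : ∀ m : ℕ, ((m : ℝ) + 1) ≤ 2 ^ m := by
    intro m
    have := Nat.lt_two_pow_self (n := m)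
    exact_mod_cast this
  have hbd : ∀ m : ℕ, ((m : ℝ) + 1) * |e (m + r)| ≤ C * (1 / 2 : ℝ) ^ m := by
    intro m
    have h1 := he (m + r)
    have h2 : (1 / 4 : ℝ) ^ (m + r) ≤ (1 / 4 : ℝ) ^ m :=
      pow_le_pow_of_le_one (by norm_num) (by norm_num) (by omega)
    calc ((m : ℝ) + 1) * |e (m + r)| ≤ 2 ^ m * (C * (1 / 4 : ℝ) ^ m) := by
          refine mul_le_mul (hpow2 m) (h1.trans (mul_le_mul_of_nonneg_left h2 hC))
            (abs_nonneg _) (by positivity)
      _ = C * (1 / 2 : ℝ) ^ m := by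
          rw [mul_left_comm, ← mul_pow]
          norm_num
  have hhalf : Summable fun n : ℕ => C * (1 / 2 : ℝ) ^ n :=
    (summable_geometric_of_lt_one (by norm_num) (by norm_num)).mul_left C
  have hWder : ∀ s ∈ Set.Ioo (-1 : ℝ) 1,
      HasDerivAt W (∑' m : ℕ, e (m + r) * (((m : ℝ) + 1) * s ^ m)) s := by
    intro s hs
    refine hasDerivAt_tsum_of_isPreconnected (u := fun n : ℕ => C * (1 / 2 : ℝ) ^ n)
      (t := Set.Ioo (-1 : ℝ) 1) (y₀ := 0)
      (g := fun (m : ℕ) (s : ℝ) => e (m + r) * s ^ (m + 1))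
      (g' := fun (m : ℕ) (s : ℝ) => e (m + r) * (((m : ℝ) + 1) * s ^ m))
      hhalf isOpen_Ioo isPreconnected_Ioo ?_ ?_ (by norm_num) ?_ hs
    · intro m y _
      have := (hasDerivAt_pow (m + 1) y).const_mul (e (m + r))
      refine this.congr_deriv ?_
      push_cast
      ring_nf
    · intro m y hy
      have hy1 : |y| ≤ 1 := abs_le.2 ⟨hy.1.le, hy.2.le⟩
      rw [norm_mul, norm_mul, norm_pow, Real.norm_eq_abs, Real.norm_eq_abs, Real.norm_eq_abs,
        abs_of_nonneg (by positivity : (0 : ℝ) ≤ (m : ℝ) + 1)]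
      calc |e (m + r)| * (((m : ℝ) + 1) * |y| ^ m) = (((m : ℝ) + 1) * |e (m + r)|) * |y| ^ m := by
            ring
        _ ≤ (((m : ℝ) + 1) * |e (m + r)|) * 1 :=
            mul_le_mul_of_nonneg_left (pow_le_one₀ (abs_nonneg y) hy1) (by positivity)
        _ ≤ _ := by rw [mul_one]; exact hbd m
    · simp only [ne_eq, Nat.add_eq_zero_iff, one_ne_zero, and_false, not_false_eq_true, zero_pow,
        mul_zero]
      exact summable_zero
  -- splitting the series
  have hsplit : ∀ s ∈ Set.Ioo (-1 : ℝ) 1, ∑' n, e n * s ^ n =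
      ∑ i ∈ range r, (1 - l * (i + r)) * s ^ i + s ^ (r - 1) * W s := by
    intro s hs
    have hs1 : |s| ≤ 1 := abs_le.2 ⟨hs.1.le, hs.2.le⟩
    have h1 := (hsumm s hs1).of_norm.sum_add_tsum_nat_add r
    rw [← h1]
    congr 1
    · refine sum_congr rfl fun i hi => ?_
      rw [hsmall i (mem_range.1 hi)]
    · rw [hW, ← tsum_mul_left]
      refine tsum_congr fun m => ?_
      have : s ^ (m + r) = s ^ (r - 1) * s ^ (m + 1) := by
        rw [← pow_add]
        congr 1
        omega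
      rw [this]
      ring
  -- the differential equation
  have hode : ∀ s ∈ Set.Ioo (-1 : ℝ) 1,
      (1 - s) * ∑' m : ℕ, e (m + r) * (((m : ℝ) + 1) * s ^ m) = 2 * ∑' n, e n * s ^ n := by
    intro s hs
    have hs1 : |s| ≤ 1 := abs_le.2 ⟨hs.1.le, hs.2.le⟩
    have hs2 : |s| < 1 := abs_lt.2 hs
    have hgeo : Summable fun n : ℕ => ‖s ^ n‖ := by
      simp only [norm_pow, Real.norm_eq_abs]
      exact summable_geometric_of_lt_one (abs_nonneg s) hs2
    have h1 := tsum_mul_tsum_eq_tsum_sum_range_of_summable_norm (hsumm s hs1) hgeo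
    rw [tsum_geometric_of_norm_lt_one (by rwa [Real.norm_eq_abs])] at h1
    have h2 : ∑' m : ℕ, e (m + r) * (((m : ℝ) + 1) * s ^ m) =
        2 * ∑' n : ℕ, ∑ k ∈ range (n + 1), e k * s ^ k * s ^ (n - k) := by
      rw [← tsum_mul_left]
      refine tsum_congr fun m => ?_
      have h3 : ∑ k ∈ range (m + 1), e k * s ^ k * s ^ (m - k) =
          (∑ k ∈ range (m + 1), e k) * s ^ m := by
        rw [sum_mul]
        refine sum_congr rfl fun k hk => ?_
        rw [mul_assoc, ← pow_add]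
        congr 2
        have := mem_range.1 hk
        omega
      rw [h3]
      linear_combination (s ^ m) * h m
    rw [h2, ← h1]
    have h4 : (1 - s) ≠ 0 := by linarith [hs.2]
    field_simp
  -- the function which is constant
  set F : ℝ → ℝ := fun s => (1 - s) ^ 2 * eps r s * W s -
    (Phi r s + s * eps r s * ((1 - l * (r + r)) * (1 - s) - l * s)) with hF
  have hFder : ∀ s ∈ Set.Ico (0 : ℝ) 1, HasDerivAt F 0 s := by
    intro s hs
    have hs' : s ∈ Set.Ioo (-1 : ℝ) 1 := ⟨by linarith [hs.1], hs.2⟩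
    have d1 := (hasDerivAt_sq_eps (r := r) s).fun_mul (hWder s hs')
    have d2 : HasDerivAt (fun s : ℝ => (1 - l * (r + r)) * (1 - s) - l * s)
        ((1 - l * (r + r)) * (-1) - l * 1) s :=
      (((hasDerivAt_id s).const_sub 1).const_mul _).fun_sub ((hasDerivAt_id s).const_mul l)
    have d3 := ((hasDerivAt_id s).fun_mul (hasDerivAt_eps r s)).fun_mul d2
    have d4 := d1.fun_sub ((hasDerivAt_Phi r s).fun_add d3)
    refine d4.congr_deriv ?_
    have o1 := hode s hs'
    rw [hsplit s hs'] at o1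
    have o2 := low_eq l r s r
    have o3 := mul_neg_geom_sum s (r - 1)
    have o4 : s ^ r = s * s ^ (r - 1) := by
      rw [← pow_succ']
      congr 1
      omega
    rw [o4] at o2
    set w' := ∑' m : ℕ, e (m + r) * (((m : ℝ) + 1) * s ^ m)
    set low := ∑ i ∈ range r, (1 - l * ((i : ℝ) + r)) * s ^ i
    set σ := ∑ k ∈ range (r - 1), s ^ k
    set p := s ^ (r - 1)
    have hne : (1 - s) ≠ 0 := by linarith [hs.2]
    have key : (1 - s) * (-2 * ((1 - s) * eps r s * p) * W s + (1 - s) ^ 2 * eps r s * w' -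
        (eps r s + ((1 * eps r s + s * (eps r s * (2 * σ))) *
          ((1 - l * (r + r)) * (1 - s) - l * s) +
          s * eps r s * ((1 - l * (r + r)) * (-1) - l * 1)))) = 0 := by
      linear_combination (eps r s * (1 - s) ^ 2) * o1 + 2 * eps r s * o2 -
        (2 * s * eps r s * ((1 - l * (r + r)) * (1 - s) - l * s)) * o3
    rcases mul_eq_zero.1 key with h5 | h5
    · exact absurd h5 hne
    · simpa using h5
  have hconst : F t = F 0 := by
    refine constant_of_has_deriv_right_zero (a := 0) (b := t) ?_ ?_ t ⟨ht0, le_rfl⟩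
    · intro s hs
      exact (hFder s ⟨hs.1, lt_of_le_of_lt hs.2 ht1⟩).continuousAt.continuousWithinAt
    · intro s hs
      exact (hFder s ⟨hs.1, hs.2.trans ht1⟩).hasDerivWithinAt
  have hF0 : F 0 = 0 := by
    have hW0 : W 0 = 0 := by
      simp [hW]
    have hP0 : Phi r 0 = 0 := by
      simp [Phi]
    simp [hF, hW0, hP0]
  have hFt : (1 - t) ^ 2 * eps r t * W t =
      Phi r t + t * eps r t * ((1 - l * (r + r)) * (1 - t) - l * t) := by
    have := hconst.trans hF0
    simp only [hF] at this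
    linarith
  rw [hsplit t ⟨by linarith, ht1⟩]
  have o2 := low_eq l r t r
  have o4 : t ^ r = t * t ^ (r - 1) := by
    rw [← pow_succ']
    congr 1
    omega
  rw [o4] at o2
  linear_combination (eps r t) * o2 + (t ^ (r - 1)) * hFt

end Pool.Agent.Run7.h601.Rsa
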