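import Pool.Agent.Run7.h601.Rsa.Process

set_option autoImplicit false

/-!
# The recursion for intervals
-/

namespace Pool.Agent.Run7.h601.Rsa

open Finset

theorem avail_short {r a n : ℕ} (h : n < r) : avail r (Ico a (a + n)) = ∅ := by
  rw [avail, filter_eq_empty_iff]
  intro i hi h2
  rw [mem_Ico] at hi
  have h3 : i + r - 1 ∈ Ico i (i + r) := by
    rw [mem_Ico]
    omega
  have h4 := h2 h3
  rw [mem_Ico] at h4
  omega

theorem avail_Ico {r a m : ℕ} (hr : 0 < r) :
    avail r (Ico a (a + (m + r))) = Ico a (a + (m + 1)) := by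
  ext i
  rw [avail, mem_filter, mem_Ico, mem_Ico]
  constructor
  · rintro ⟨hi, h2⟩
    have h3 : i + r - 1 ∈ Ico i (i + r) := by
      rw [mem_Ico]
      omega
    have h4 := h2 h3
    rw [mem_Ico] at h4
    omega
  · intro hi
    refine ⟨by omega, fun x hx => ?_⟩
    rw [mem_Ico] at hx ⊢
    omega

theorem rec_a {r : ℕ} (hr : 0 < r) (a m : ℕ) (φ : ℕ → ℝ) :
    ((m : ℝ) + 1) * expect r (Ico a (a + (m + r))) φ =
      ∑ j ∈ range (m + 1), expect r (Ico a (a + j)) fun x =>
        expect r (Ico (a + j + r) (a + j + r + (m - j))) fun y => φ (x + y + 1) := by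
  have h := card_mul_expect hr (Ico a (a + (m + r))) φ
  rw [avail_Ico hr, Nat.card_Ico, sum_Ico_eq_sum_range] at h
  rw [show a + (m + 1) - a = m + 1 by omega] at h
  push_cast at h
  rw [h]
  refine sum_congr rfl fun j hj => ?_
  rw [mem_range] at hj
  have hs : Ico a (a + (m + r)) \ Ico (a + j) (a + j + r) =
      Ico a (a + j) ∪ Ico (a + j + r) (a + j + r + (m - j)) := by
    ext x
    simp only [mem_sdiff, mem_union, mem_Ico]
    omega
  rw [hs, expect_union hr (a + j) _ _ _ rfl]
  · intro x hx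
    rw [mem_Ico] at hx
    omega
  · intro x hx
    rw [mem_Ico] at hx
    omega

/-- translation invariance for intervals -/
theorem expect_translate {r : ℕ} (hr : 0 < r) : ∀ (n a b : ℕ) (φ : ℕ → ℝ),
    expect r (Ico a (a + n)) φ = expect r (Ico b (b + n)) φ := by
  intro n
  induction n using Nat.strong_induction_on with
  | _ n ih =>
    intro a b φ
    rcases lt_or_ge n r with h | h
    · rw [expect_of_empty (avail_short h), expect_of_empty (avail_short h)]
    · obtain ⟨m, rfl⟩ : ∃ m, n = m + r := ⟨n - r, by omega⟩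
      have h1 := rec_a hr a m φ
      have h2 := rec_a hr b m φ
      have h3 : ∑ j ∈ range (m + 1), expect r (Ico a (a + j)) (fun x =>
            expect r (Ico (a + j + r) (a + j + r + (m - j))) fun y => φ (x + y + 1)) =
          ∑ j ∈ range (m + 1), expect r (Ico b (b + j)) (fun x =>
            expect r (Ico (b + j + r) (b + j + r + (m - j))) fun y => φ (x + y + 1)) := by
        refine sum_congr rfl fun j hj => ?_
        rw [mem_range] at hj
        rw [ih j (by omega) a b]
        congr 1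
        funext x
        exact ih (m - j) (by omega) _ _ _
      rw [h3, ← h2] at h1
      exact mul_left_cancel₀ (by positivity) h1

/-- the expected value of `φ` at the number of `r`-mers on the sites `1, …, n` -/
noncomputable def En (r n : ℕ) (φ : ℕ → ℝ) : ℝ := expect r (Icc 1 n) φ

theorem En_eq (r n : ℕ) (φ : ℕ → ℝ) : En r n φ = expect r (Ico 1 (1 + n)) φ := by
  rw [En]
  congr 1
  ext x
  rw [mem_Icc, mem_Ico]
  omega

theorem En_eq' {r : ℕ} (hr : 0 < r) (n a : ℕ) (φ : ℕ → ℝ) :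
    expect r (Ico a (a + n)) φ = En r n φ := by
  rw [En_eq, expect_translate hr]

theorem En_small {r n : ℕ} (h : n < r) (φ : ℕ → ℝ) : En r n φ = φ 0 := by
  rw [En_eq, expect_of_empty (avail_short h)]

/-- the recursion: the first block splits the interval -/
theorem En_rec {r : ℕ} (hr : 0 < r) (m : ℕ) (φ : ℕ → ℝ) :
    ((m : ℝ) + 1) * En r (m + r) φ =
      ∑ j ∈ range (m + 1), En r j fun x => En r (m - j) fun y => φ (x + y + 1) := by
  rw [En_eq, rec_a hr]
  refine sum_congr rfl fun j _ => ?_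
  rw [En_eq' hr]
  congr 1
  funext x
  rw [En_eq' hr]

theorem En_add {r : ℕ} (hr : 0 < r) (n : ℕ) (φ ψ : ℕ → ℝ) :
    En r n (fun k => φ k + ψ k) = En r n φ + En r n ψ := expect_add hr _ _ _

theorem En_smul {r : ℕ} (hr : 0 < r) (n : ℕ) (c : ℝ) (φ : ℕ → ℝ) :
    En r n (fun k => c * φ k) = c * En r n φ := expect_smul hr _ _ _

theorem En_const {r : ℕ} (hr : 0 < r) (n : ℕ) (c : ℝ) : En r n (fun _ => c) = c :=
  expect_const hr _ _

/-- the centred mean -/
noncomputable def ce (r : ℕ) (l : ℝ) (n : ℕ) : ℝ := En r n fun k => (k : ℝ) - l * (n + r) + 1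

/-- the centred second moment -/
noncomputable def cz (r : ℕ) (l : ℝ) (n : ℕ) : ℝ := En r n fun k => ((k : ℝ) - l * (n + r) + 1) ^ 2

theorem ce_small {r n : ℕ} (l : ℝ) (h : n < r) : ce r l n = 1 - l * (n + r) := by
  rw [ce, En_small h]
  push_cast
  ring

theorem cz_small {r n : ℕ} (l : ℝ) (h : n < r) : cz r l n = (1 - l * (n + r)) ^ 2 := by
  rw [cz, En_small h]
  push_cast
  ring

theorem ce_rec {r : ℕ} (hr : 0 < r) (l : ℝ) (m : ℕ) :
    ((m : ℝ) + 1) * ce r l (m + r) = 2 * ∑ j ∈ range (m + 1), ce r l j := by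
  rw [ce, En_rec hr]
  have h1 : ∀ j ∈ range (m + 1), (En r j fun x => En r (m - j) fun y =>
      (((x + y + 1 : ℕ) : ℝ) - l * (((m + r : ℕ) : ℝ) + r) + 1)) = ce r l j + ce r l (m - j) := by
    intro j hj
    rw [mem_range] at hj
    have hmj : ((m - j : ℕ) : ℝ) = (m : ℝ) - j := by
      rw [Nat.cast_sub (by omega)]
    have h2 : ∀ x : ℕ, (En r (m - j) fun y => (((x + y + 1 : ℕ) : ℝ) -
        l * (((m + r : ℕ) : ℝ) + r) + 1)) = ((x : ℝ) - l * (j + r) + 1) + ce r l (m - j) := by
      intro x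
      rw [ce, ← En_const hr (m - j) ((x : ℝ) - l * (j + r) + 1), ← En_add hr]
      congr 1
      funext y
      push_cast
      rw [hmj]
      ring
    simp only [h2]
    rw [En_add hr, En_const hr]
    rfl
  rw [sum_congr rfl h1, sum_add_distrib, two_mul]
  congr 1
  exact sum_flip (n := m) (fun j => ce r l j)

theorem cz_rec {r : ℕ} (hr : 0 < r) (l : ℝ) (m : ℕ) :
    ((m : ℝ) + 1) * cz r l (m + r) = 2 * ∑ j ∈ range (m + 1), cz r l j +
      2 * ∑ j ∈ range (m + 1), ce r l j * ce r l (m - j) := by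
  rw [cz, En_rec hr]
  have h1 : ∀ j ∈ range (m + 1), (En r j fun x => En r (m - j) fun y =>
      (((x + y + 1 : ℕ) : ℝ) - l * (((m + r : ℕ) : ℝ) + r) + 1) ^ 2) =
      cz r l j + 2 * (ce r l j * ce r l (m - j)) + cz r l (m - j) := by
    intro j hj
    rw [mem_range] at hj
    have hmj : ((m - j : ℕ) : ℝ) = (m : ℝ) - j := by
      rw [Nat.cast_sub (by omega)]
    have h2 : ∀ x : ℕ, (En r (m - j) fun y => (((x + y + 1 : ℕ) : ℝ) -
        l * (((m + r : ℕ) : ℝ) + r) + 1) ^ 2) = (((x : ℝ) - l * (j + r) + 1) ^ 2 +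
          (2 * ce r l (m - j)) * ((x : ℝ) - l * (j + r) + 1)) + cz r l (m - j) := by
      intro x
      have h3 : (fun y : ℕ => (((x + y + 1 : ℕ) : ℝ) - l * (((m + r : ℕ) : ℝ) + r) + 1) ^ 2) =
          fun y : ℕ => (((x : ℝ) - l * (j + r) + 1) ^ 2 + (2 * ((x : ℝ) - l * (j + r) + 1)) *
            ((y : ℝ) - l * (((m - j : ℕ) : ℝ) + r) + 1)) +
              ((y : ℝ) - l * (((m - j : ℕ) : ℝ) + r) + 1) ^ 2 := by
        funext y
        push_cast
        rw [hmj]
        ring
      rw [h3, En_add hr, En_add hr, En_const hr, En_smul hr]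
      rw [cz, ce]
      ring
    simp only [h2]
    rw [En_add hr, En_add hr, En_const hr, En_smul hr]
    have e1 : En r j (fun x => ((x : ℝ) - l * (j + r) + 1) ^ 2) = cz r l j := rfl
    have e2 : En r j (fun x => (x : ℝ) - l * (j + r) + 1) = ce r l j := rfl
    rw [e1, e2]
    ring
  rw [sum_congr rfl h1, sum_add_distrib, sum_add_distrib, sum_flip (n := m) (fun j => cz r l j),
    ← mul_sum]
  ring

/-- the mean and the variance of the number of `r`-mers on the sites `1, …, n` -/
noncomputable def mean (r n : ℕ) : ℝ := expect r (Icc 1 n) fun k => (k : ℝ)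

noncomputable def variance (r n : ℕ) : ℝ :=
  expect r (Icc 1 n) fun k => ((k : ℝ) - mean r n) ^ 2

theorem mean_eq {r : ℕ} (hr : 0 < r) (l : ℝ) (n : ℕ) :
    mean r n = ce r l n + l * (n + r) - 1 := by
  have h : ce r l n = En r n fun k => (k : ℝ) + (-(l * (n + r)) + 1) := by
    rw [ce]
    congr 1
    funext k
    ring
  rw [h, En_add hr, En_const hr]
  rw [mean, En]
  ring

theorem variance_eq {r : ℕ} (hr : 0 < r) (l : ℝ) (n : ℕ) :
    variance r n = cz r l n - ce r l n ^ 2 := by
  have h : (fun k : ℕ => ((k : ℝ) - mean r n) ^ 2) = fun k : ℕ =>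
      (((k : ℝ) - l * (n + r) + 1) ^ 2 + (-2 * ce r l n) * ((k : ℝ) - l * (n + r) + 1)) +
        ce r l n ^ 2 := by
    funext k
    rw [mean_eq hr l]
    ring
  have h2 : variance r n = En r n fun k : ℕ => ((k : ℝ) - mean r n) ^ 2 := rfl
  rw [h2, h, En_add hr, En_add hr, En_smul hr, En_const hr]
  rw [← cz, ← ce]
  ring

end Pool.Agent.Run7.h601.Rsa
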