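import Pool.Agent.Run7.h601.Rsa.Interval
import Pool.Agent.Run7.h601.Rsa.Closed

set_option autoImplicit false

/-!
# The asymptotic variance of the number of `r`-mers
-/

namespace Pool.Agent.Run7.h601.Rsa

open Finset Filter Topology MeasureTheory

/-- the limit of the variance per site -/
noncomputable def vv (r : ℕ) : ℝ :=
  2 * (∫ t in (0 : ℝ)..1, (t ^ (r - 1) * Phi r t -
      eps r t * (lam r * t - (1 - lam r * r) * (1 - t))) ^ 2 / ((1 - t) ^ 2 * eps r t)) +
    2 * ∑ i ∈ range r, (1 - lam r * (i + r)) ^ 2 * ∫ t in (0 : ℝ)..1, (1 - t) * t ^ i * eps r t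

theorem sum_weights {r : ℕ} (hr : 0 < r) : 2 * ∑ i ∈ range r, Tt r i * ((i : ℝ) + r) = 1 := by
  have h : ∀ m : ℕ, ((m : ℝ) + 1) * (fun n : ℕ => (n : ℝ) + r) (m + r) =
      2 * ∑ j ∈ range (m + 1), (fun n : ℕ => (n : ℝ) + r) j + (fun _ : ℕ => (0 : ℝ)) m := by
    intro m
    have h1 : ∀ k : ℕ, 2 * ∑ j ∈ range (k + 1), ((j : ℝ) + r) = ((k : ℝ) + 1) * (k + 2 * r) := by
      intro k
      induction k with
      | zero => simp
      | succ k ih =>
        rw [sum_range_succ, mul_add, ih]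
        push_cast
        ring
    simp only
    rw [h1]
    push_cast
    ring
  obtain ⟨D, hD0, hD⟩ := slope (a := fun n : ℕ => (n : ℝ) + r) (g := fun _ : ℕ => (0 : ℝ)) hr h
    (ρ := 1 / 2) (C := 0) (by norm_num) (by norm_num) le_rfl (fun m => by simp)
  simp only [mul_zero, tsum_zero, zero_add] at hD
  set c := 2 * ∑ i ∈ range r, Tt r i * ((i : ℝ) + r) with hc
  have hr' : (0 : ℝ) < r := by exact_mod_cast hr
  have h1 : ∀ n : ℕ, |1 - c| ≤ D * (1 / 2 : ℝ) ^ n := by
    intro n
    have h2 := hD n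
    rwa [div_self (by positivity)] at h2
  have h2 : Tendsto (fun n : ℕ => D * (1 / 2 : ℝ) ^ n) atTop (𝓝 0) := by
    have := (tendsto_pow_atTop_nhds_zero_of_lt_one (by norm_num : (0 : ℝ) ≤ 1 / 2)
      (by norm_num)).const_mul D
    rwa [mul_zero] at this
  have h3 : |1 - c| ≤ 0 := ge_of_tendsto' h2 h1
  have h4 := abs_nonpos_iff.1 h3
  linarith

/-- the centred mean decays -/
theorem ce_decay {r : ℕ} (hr : 0 < r) :
    ∃ C : ℝ, 0 ≤ C ∧ ∀ n, |ce r (lam r) n| ≤ C * (1 / 4 : ℝ) ^ n := by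
  have h : ∀ m : ℕ, ((m : ℝ) + 1) * ce r (lam r) (m + r) =
      2 * ∑ j ∈ range (m + 1), ce r (lam r) j + (fun _ : ℕ => (0 : ℝ)) m := by
    intro m
    rw [ce_rec hr]
    simp
  obtain ⟨D, hD0, hD⟩ := slope (a := ce r (lam r)) (g := fun _ : ℕ => (0 : ℝ)) hr h
    (ρ := 1 / 8) (C := 0) (by norm_num) (by norm_num) le_rfl (fun m => by simp)
  have hα : 2 * ∑ i ∈ range r, Tt r i * ce r (lam r) i = 0 := by
    have h1 : ∑ i ∈ range r, Tt r i * ce r (lam r) i =
        ∑ i ∈ range r, Tt r i - lam r * ∑ i ∈ range r, Tt r i * ((i : ℝ) + r) := by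
      rw [mul_sum, ← sum_sub_distrib]
      refine sum_congr rfl fun i hi => ?_
      rw [ce_small _ (mem_range.1 hi)]
      ring
    rw [h1]
    have h2 := two_sum_Tt hr
    have h3 := sum_weights hr
    linear_combination h2 - (lam r) * h3
  simp only [mul_zero, tsum_zero, zero_add] at hD
  rw [hα] at hD
  refine ⟨D * (1 + r), by positivity, fun n => ?_⟩
  have hr' : (0 : ℝ) < r := by exact_mod_cast hr
  have h1 := hD n
  rw [sub_zero, abs_div, abs_of_pos (by positivity : (0 : ℝ) < (n : ℝ) + r),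
    div_le_iff₀ (by positivity)] at h1
  refine h1.trans ?_
  have h2 : ((n : ℝ) + r) ≤ (1 + r) * 2 ^ n := by
    have h3 : (n : ℝ) ≤ 2 ^ n := by exact_mod_cast (Nat.lt_two_pow_self (n := n)).le
    have h4 : (1 : ℝ) ≤ 2 ^ n := one_le_pow₀ (by norm_num)
    nlinarith
  calc D * (1 / 8 : ℝ) ^ n * ((n : ℝ) + r) ≤ D * (1 / 8 : ℝ) ^ n * ((1 + r) * 2 ^ n) :=
        mul_le_mul_of_nonneg_left h2 (by positivity)
    _ = D * (1 + r) * ((1 / 8 : ℝ) ^ n * 2 ^ n) := by ring
    _ = D * (1 + r) * (1 / 4 : ℝ) ^ n := by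
        rw [← mul_pow]
        norm_num

/-- the mean number of `r`-mers -/
theorem mean_limit {r : ℕ} (hr : 0 < r) :
    ∃ C : ℝ, 0 ≤ C ∧ ∀ n, |mean r n - (lam r * (n + r) - 1)| ≤ C * (1 / 4 : ℝ) ^ n := by
  obtain ⟨C, hC0, hC⟩ := ce_decay hr
  refine ⟨C, hC0, fun n => ?_⟩
  have h := hC n
  rw [mean_eq hr (lam r)]
  convert h using 2
  ring

theorem variance_limit {r : ℕ} (hr : 0 < r) :
    Tendsto (fun n : ℕ => variance r n / n) atTop (𝓝 (vv r)) := by
  obtain ⟨C, hC0, hC⟩ := ce_decay hr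
  set e : ℕ → ℝ := ce r (lam r) with he
  have hr' : (0 : ℝ) < r := by exact_mod_cast hr
  -- the source term
  set c : ℕ → ℝ := fun m => ∑ j ∈ range (m + 1), e j * e (m - j) with hc
  have hcb : ∀ m, |c m| ≤ C ^ 2 * (1 / 2 : ℝ) ^ m := by
    intro m
    have h1 : ∀ j ∈ range (m + 1), |e j * e (m - j)| ≤ C ^ 2 * (1 / 4 : ℝ) ^ m := by
      intro j hj
      have hj' := mem_range.1 hj
      rw [abs_mul]
      calc |e j| * |e (m - j)| ≤ (C * (1 / 4 : ℝ) ^ j) * (C * (1 / 4 : ℝ) ^ (m - j)) :=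
            mul_le_mul (hC j) (hC (m - j)) (abs_nonneg _) (by positivity)
        _ = C ^ 2 * ((1 / 4 : ℝ) ^ j * (1 / 4 : ℝ) ^ (m - j)) := by ring
        _ = C ^ 2 * (1 / 4 : ℝ) ^ m := by
            rw [← pow_add]
            congr 2
            omega
    have h2 : |c m| ≤ ((m + 1 : ℕ) : ℝ) * (C ^ 2 * (1 / 4 : ℝ) ^ m) := by
      refine (Finset.abs_sum_le_sum_abs _ _).trans ?_
      have := Finset.sum_le_card_nsmul _ _ _ h1
      rwa [card_range, nsmul_eq_mul] at this
    refine h2.trans ?_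
    have h3 : ((m + 1 : ℕ) : ℝ) ≤ 2 ^ m := by
      exact_mod_cast Nat.lt_two_pow_self (n := m)
    calc ((m + 1 : ℕ) : ℝ) * (C ^ 2 * (1 / 4 : ℝ) ^ m) ≤ 2 ^ m * (C ^ 2 * (1 / 4 : ℝ) ^ m) :=
          mul_le_mul_of_nonneg_right h3 (by positivity)
      _ = C ^ 2 * (1 / 2 : ℝ) ^ m := by
          rw [mul_left_comm, ← mul_pow]
          norm_num
  have hz : ∀ m : ℕ, ((m : ℝ) + 1) * cz r (lam r) (m + r) =
      2 * ∑ j ∈ range (m + 1), cz r (lam r) j + (fun m => 2 * c m) m := by
    intro m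
    rw [cz_rec hr]
  obtain ⟨D, hD0, hD⟩ := slope (a := cz r (lam r)) (g := fun m => 2 * c m) hr hz (ρ := 1 / 2) (C := 2 * C ^ 2) (by norm_num) (by norm_num)
    (by positivity) (fun m => by
      rw [abs_mul, abs_of_pos (by norm_num : (0 : ℝ) < 2), mul_assoc]
      exact mul_le_mul_of_nonneg_left (hcb m) (by norm_num))
  -- the value of the limit
  have hval : ∑' m, wt r m * (2 * c m) + 2 * ∑ i ∈ range r, Tt r i * cz r (lam r) i = vv r := by
    have hint : HasSum (fun m : ℕ => ∫ t in (0 : ℝ)..1, (1 - t) ^ 2 * eps r t * t ^ m * c m)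
        (∫ t in (0 : ℝ)..1, (t ^ (r - 1) * Phi r t -
          eps r t * (lam r * t - (1 - lam r * r) * (1 - t))) ^ 2 / ((1 - t) ^ 2 * eps r t)) := by
      have hceps := continuous_eps r
      refine intervalIntegral.hasSum_integral_of_dominated_convergence
        (fun (m : ℕ) (_ : ℝ) => C ^ 2 * (1 / 2 : ℝ) ^ m) ?_ ?_ ?_ ?_ ?_
      · intro m
        exact (Continuous.aestronglyMeasurable (by fun_prop))
      · intro m
        refine ae_of_all _ fun t ht => ?_
        rw [Set.uIoc_of_le (by norm_num)] at ht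
        rw [norm_mul, Real.norm_eq_abs, Real.norm_eq_abs]
        have h1 : |(1 - t) ^ 2 * eps r t * t ^ m| ≤ 1 := by
          rw [abs_of_nonneg (mul_nonneg (mul_nonneg (sq_nonneg _) (eps_pos r t).le)
            (pow_nonneg ht.1.le _))]
          have e1 : (1 - t) ^ 2 ≤ 1 := by nlinarith [ht.1, ht.2]
          have e2 := eps_le_one (r := r) ht.1.le ht.2
          have e3 : t ^ m ≤ 1 := pow_le_one₀ ht.1.le ht.2
          have e4 : (1 - t) ^ 2 * eps r t ≤ 1 := mul_le_one₀ e1 (eps_pos r t).le e2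
          exact mul_le_one₀ e4 (pow_nonneg ht.1.le _) e3
        calc |(1 - t) ^ 2 * eps r t * t ^ m| * |c m| ≤ 1 * |c m| :=
              mul_le_mul_of_nonneg_right h1 (abs_nonneg _)
          _ ≤ _ := by rw [one_mul]; exact hcb m
      · refine ae_of_all _ fun t _ => ?_
        exact (summable_geometric_of_lt_one (by norm_num) (by norm_num)).mul_left _
      · exact intervalIntegrable_const
      · refine ae_of_all _ fun t ht => ?_
        rw [Set.uIoc_of_le (by norm_num)] at ht
        rcases eq_or_lt_of_le ht.2 with h1 | h1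
        · subst h1
          simp only [sub_self, ne_eq, OfNat.ofNat_ne_zero, not_false_eq_true, zero_pow, zero_mul,
            div_zero]
          exact hasSum_zero
        · have hab : |t| ≤ 1 := abs_le.2 ⟨by linarith [ht.1], ht.2⟩
          have hsumm : Summable fun n => ‖e n * t ^ n‖ := by
            refine Summable.of_nonneg_of_le (fun n => norm_nonneg _) (fun n => ?_)
              ((summable_geometric_of_lt_one (by norm_num : (0 : ℝ) ≤ 1 / 4)
                (by norm_num)).mul_left C)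
            rw [norm_mul, norm_pow, Real.norm_eq_abs, Real.norm_eq_abs]
            calc |e n| * |t| ^ n ≤ |e n| * 1 :=
                  mul_le_mul_of_nonneg_left (pow_le_one₀ (abs_nonneg t) hab) (abs_nonneg _)
              _ ≤ _ := by rw [mul_one]; exact hC n
          have h2 := hasSum_sum_range_mul_of_summable_norm hsumm hsumm
          have h3 := closed (e := e) (l := lam r) hr (fun m => ce_rec hr (lam r) m)
            (fun i hi => ce_small _ hi) hC0 hC ht.1.le h1
          have h4 : (t ^ (r - 1) * Phi r t -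
              eps r t * (lam r * t - (1 - lam r * r) * (1 - t))) ^ 2 / ((1 - t) ^ 2 * eps r t) =
              (1 - t) ^ 2 * eps r t * ((∑' n, e n * t ^ n) * ∑' n, e n * t ^ n) := by
            rw [← h3]
            have h5 : (1 - t) ≠ 0 := by linarith
            have h6 := (eps_pos r t).ne'
            field_simp
          rw [h4]
          have h7 := h2.mul_left ((1 - t) ^ 2 * eps r t)
          refine h7.congr_fun ?_
          intro m
          have h8 : ∑ k ∈ range (m + 1), e k * t ^ k * (e (m - k) * t ^ (m - k)) =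
              c m * t ^ m := by
            simp only [hc]
            rw [sum_mul]
            refine sum_congr rfl fun k hk => ?_
            have := mem_range.1 hk
            have h9 : t ^ m = t ^ k * t ^ (m - k) := by
              rw [← pow_add]
              congr 1
              omega
            rw [h9]
            ring
          rw [h8]
          ring
    have h1 : ∑' m, wt r m * (2 * c m) = 2 * ∫ t in (0 : ℝ)..1, (t ^ (r - 1) * Phi r t -
        eps r t * (lam r * t - (1 - lam r * r) * (1 - t))) ^ 2 / ((1 - t) ^ 2 * eps r t) := by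
      rw [← hint.tsum_eq, ← tsum_mul_left]
      refine tsum_congr fun m => ?_
      rw [intervalIntegral.integral_mul_const, wt]
      ring
    rw [h1, vv]
    congr 2
    refine sum_congr rfl fun i hi => ?_
    rw [cz_small _ (mem_range.1 hi), Tt, mul_comm]
    congr 1
    congr 1
    funext t
    ring
  rw [hval] at hD
  -- the limit
  have hinv : Tendsto (fun n : ℕ => (1 : ℝ) / n) atTop (𝓝 0) := tendsto_one_div_atTop_nhds_zero_nat
  have hy : Tendsto (fun n : ℕ => cz r (lam r) n / ((n : ℝ) + r)) atTop (𝓝 (vv r)) := by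
    rw [tendsto_iff_norm_sub_tendsto_zero]
    refine squeeze_zero (g := fun n : ℕ => D * (1 / 2 : ℝ) ^ n) (fun n => norm_nonneg _)
      (fun n => hD n) ?_
    have := (tendsto_pow_atTop_nhds_zero_of_lt_one (by norm_num : (0 : ℝ) ≤ 1 / 2)
      (by norm_num)).const_mul D
    rwa [mul_zero] at this
  have he0 : Tendsto (fun n : ℕ => e n) atTop (𝓝 0) := by
    refine squeeze_zero_norm (a := fun n : ℕ => C * (1 / 4 : ℝ) ^ n) (fun n => hC n) ?_
    have := (tendsto_pow_atTop_nhds_zero_of_lt_one (by norm_num : (0 : ℝ) ≤ 1 / 4)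
      (by norm_num)).const_mul C
    rwa [mul_zero] at this
  have hmain : Tendsto (fun n : ℕ => cz r (lam r) n / ((n : ℝ) + r) * (1 + r * ((1 : ℝ) / n)) -
      e n ^ 2 * ((1 : ℝ) / n)) atTop (𝓝 (vv r * (1 + r * 0) - 0 ^ 2 * 0)) :=
    (hy.mul (tendsto_const_nhds.add (hinv.const_mul (r : ℝ)))).sub ((he0.pow 2).mul hinv)
  have hlim : (vv r * (1 + r * 0) - 0 ^ 2 * 0) = vv r := by ring
  rw [hlim] at hmain
  refine hmain.congr' ?_
  filter_upwards [eventually_gt_atTop 0] with n hn
  have hn' : (0 : ℝ) < n := by exact_mod_cast hn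
  rw [variance_eq hr (lam r)]
  field_simp
  ring

end Pool.Agent.Run7.h601.Rsa
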