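import Mathlib

set_option autoImplicit false

/-!
# Random sequential adsorption of `r`-mers on a finite set of sites
-/

namespace Pool.Agent.Run7.h601.Rsa

open Finset

/-- the blocks of `r` consecutive uncovered sites (given by their first site), `U` being the set of
uncovered sites -/
def avail (r : ℕ) (U : Finset ℕ) : Finset ℕ := U.filter fun i => Ico i (i + r) ⊆ U

/-- `expect r U φ` is the expected value of `φ N`, where `N` is the number of `r`-mers placed by
random sequential adsorption, started with the set `U` of uncovered sites, until no block of `r`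
consecutive uncovered sites remains; each placement is uniform among the blocks that are still
entirely uncovered. -/
noncomputable def expect (r : ℕ) (U : Finset ℕ) (φ : ℕ → ℝ) : ℝ :=
  if 0 < r ∧ (avail r U).Nonempty then
    (∑ i ∈ (avail r U).attach, expect r (U \ Ico i.1 (i.1 + r)) fun k => φ (k + 1)) /
      ((avail r U).card : ℝ)
  else φ 0
termination_by U.card
decreasing_by
  apply Finset.card_lt_card
  have hi : i.1 ∈ U ∧ Ico i.1 (i.1 + r) ⊆ U := mem_filter.1 i.2
  refine ⟨sdiff_subset, fun h => ?_⟩
  have h1 := h hi.1
  rw [mem_sdiff, mem_Ico] at h1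
  exact h1.2 ⟨le_rfl, by omega⟩

theorem expect_of_empty {r : ℕ} {U : Finset ℕ} (h : avail r U = ∅) (φ : ℕ → ℝ) :
    expect r U φ = φ 0 := by
  rw [expect, if_neg]
  rintro ⟨-, h1⟩
  rw [h] at h1
  exact not_nonempty_empty h1

theorem card_mul_expect {r : ℕ} (hr : 0 < r) (U : Finset ℕ) (φ : ℕ → ℝ) :
    ((avail r U).card : ℝ) * expect r U φ =
      ∑ i ∈ avail r U, expect r (U \ Ico i (i + r)) fun k => φ (k + 1) := by
  by_cases h : (avail r U).Nonempty
  · rw [expect, if_pos ⟨hr, h⟩, mul_div_cancel₀]
    · exact sum_attach (avail r U) fun i => expect r (U \ Ico i (i + r)) fun k => φ (k + 1)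
    · exact_mod_cast h.card_pos.ne'
  · rw [not_nonempty_iff_eq_empty] at h
    rw [h]
    simp

/-- induction principle for statements about `expect` -/
theorem expect_induct {r : ℕ} (hr : 0 < r) {P : Finset ℕ → Prop}
    (h : ∀ U, (∀ i ∈ avail r U, P (U \ Ico i (i + r))) → P U) (U : Finset ℕ) : P U := by
  induction hn : U.card using Nat.strong_induction_on generalizing U with
  | _ n ih =>
    apply h
    intro i hi
    refine ih _ ?_ _ rfl
    rw [← hn]
    apply Finset.card_lt_card
    rw [avail, mem_filter] at hi
    refine ⟨sdiff_subset, fun h => ?_⟩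
    have h1 := h hi.1
    rw [mem_sdiff, mem_Ico] at h1
    exact h1.2 ⟨le_rfl, by omega⟩

theorem expect_congr_of {r : ℕ} (hr : 0 < r) {U : Finset ℕ} {φ : ℕ → ℝ} {x : ℝ}
    (h0 : avail r U = ∅ → φ 0 = x)
    (h1 : ∑ i ∈ avail r U, expect r (U \ Ico i (i + r)) (fun k => φ (k + 1)) =
      ((avail r U).card : ℝ) * x) : expect r U φ = x := by
  by_cases h : (avail r U).Nonempty
  · have h2 := card_mul_expect hr U φ
    rw [h1] at h2
    exact mul_left_cancel₀ (by exact_mod_cast h.card_pos.ne') h2
  · rw [not_nonempty_iff_eq_empty] at h
    rw [expect_of_empty h, h0 h]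

/-- linearity -/
theorem expect_add {r : ℕ} (hr : 0 < r) (U : Finset ℕ) : ∀ (φ ψ : ℕ → ℝ),
    expect r U (fun k => φ k + ψ k) = expect r U φ + expect r U ψ := by
  induction U using expect_induct hr with
  | h U ih =>
    intro φ ψ
    refine expect_congr_of hr (fun h => ?_) ?_
    · rw [expect_of_empty h, expect_of_empty h]
    · rw [mul_add, card_mul_expect hr, card_mul_expect hr, ← sum_add_distrib]
      exact sum_congr rfl fun i hi => ih i hi _ _

theorem expect_smul {r : ℕ} (hr : 0 < r) (U : Finset ℕ) : ∀ (c : ℝ) (φ : ℕ → ℝ),
    expect r U (fun k => c * φ k) = c * expect r U φ := by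
  induction U using expect_induct hr with
  | h U ih =>
    intro c φ
    refine expect_congr_of hr (fun h => ?_) ?_
    · rw [expect_of_empty h]
    · rw [mul_left_comm, card_mul_expect hr, mul_sum]
      exact sum_congr rfl fun i hi => ih i hi _ _

theorem expect_const {r : ℕ} (hr : 0 < r) (U : Finset ℕ) : ∀ (c : ℝ),
    expect r U (fun _ => c) = c := by
  induction U using expect_induct hr with
  | h U ih =>
    intro c
    refine expect_congr_of hr (fun h => rfl) ?_
    rw [sum_congr rfl fun i hi => ih i hi c]
    simp

theorem expect_sum {r : ℕ} (hr : 0 < r) (U : Finset ℕ) {ι : Type} (s : Finset ι)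
    (φ : ι → ℕ → ℝ) :
    expect r U (fun k => ∑ j ∈ s, φ j k) = ∑ j ∈ s, expect r U (φ j) := by
  classical
  induction s using Finset.induction_on with
  | empty => simp [expect_const hr]
  | insert a s ha ih =>
    simp only [sum_insert ha]
    rw [expect_add hr, ih]

/-- available blocks of two separated sets of sites -/
theorem avail_union {r : ℕ} {A B : Finset ℕ} (c : ℕ) (hA : ∀ a ∈ A, a < c) (hB : ∀ b ∈ B, c < b) :
    avail r (A ∪ B) = avail r A ∪ avail r B := by
  ext i
  simp only [avail, mem_filter, mem_union]
  constructor
  · rintro ⟨hi, h⟩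
    have hc : c ∉ A ∪ B := by
      rw [mem_union]
      rintro (h1 | h1)
      · exact (hA c h1).false
      · exact (hB c h1).false
    have hcI : c ∉ Ico i (i + r) := fun h1 => hc (h h1)
    rw [mem_Ico] at hcI
    rcases hi with hi | hi
    · left
      refine ⟨hi, fun x hx => ?_⟩
      have h1 := h hx
      rw [mem_union] at h1
      rcases h1 with h1 | h1
      · exact h1
      · have := hB x h1
        have := hA i hi
        rw [mem_Ico] at hx
        omega
    · right
      refine ⟨hi, fun x hx => ?_⟩
      have h1 := h hx
      rw [mem_union] at h1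
      rcases h1 with h1 | h1
      · have := hA x h1
        have := hB i hi
        rw [mem_Ico] at hx
        omega
      · exact h1
  · rintro (⟨hi, h⟩ | ⟨hi, h⟩)
    · exact ⟨Or.inl hi, h.trans subset_union_left⟩
    · exact ⟨Or.inr hi, h.trans subset_union_right⟩

theorem avail_disjoint {r : ℕ} {A B : Finset ℕ} (c : ℕ) (hA : ∀ a ∈ A, a < c)
    (hB : ∀ b ∈ B, c < b) : Disjoint (avail r A) (avail r B) := by
  rw [Finset.disjoint_left]
  intro i hi hj
  rw [avail, mem_filter] at hi hj
  have := hA i hi.1
  have := hB i hj.1
  omega

/-- the number of `r`-mers on two separated sets of sites is a sum of two independent ones -/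
theorem expect_union {r : ℕ} (hr : 0 < r) (c : ℕ) : ∀ (n : ℕ) (A B : Finset ℕ),
    A.card + B.card = n → (∀ a ∈ A, a < c) → (∀ b ∈ B, c < b) → ∀ (φ : ℕ → ℝ),
    expect r (A ∪ B) φ = expect r A (fun x => expect r B (fun y => φ (x + y))) := by
  intro n
  induction n using Nat.strong_induction_on with
  | _ n ih =>
    intro A B hn hA hB φ
    have key : ∀ {U : Finset ℕ} {i : ℕ}, i ∈ avail r U → (U \ Ico i (i + r)).card < U.card := by
      intro U i hi
      apply Finset.card_lt_card
      rw [avail, mem_filter] at hi
      refine ⟨sdiff_subset, fun h => ?_⟩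
      have h1 := h hi.1
      rw [mem_sdiff, mem_Ico] at h1
      exact h1.2 ⟨le_rfl, by omega⟩
    refine expect_congr_of hr (fun h => ?_) ?_
    · rw [avail_union c hA hB, union_eq_empty] at h
      rw [expect_of_empty h.1, expect_of_empty h.2]
    · rw [avail_union c hA hB, sum_union (avail_disjoint c hA hB),
        card_union_of_disjoint (avail_disjoint c hA hB)]
      have e1 : ∀ i ∈ avail r A, expect r ((A ∪ B) \ Ico i (i + r)) (fun k => φ (k + 1)) =
          expect r (A \ Ico i (i + r))
            (fun x => (fun x => expect r B (fun y => φ (x + y))) (x + 1)) := by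
        intro i hi
        have hi' := hi
        rw [avail, mem_filter] at hi'
        have hs : (A ∪ B) \ Ico i (i + r) = (A \ Ico i (i + r)) ∪ B := by
          rw [union_sdiff_distrib, sdiff_eq_self_of_disjoint (s := B)]
          rw [Finset.disjoint_left]
          intro b hb hb2
          have := hB b hb
          have := hA b (hi'.2 hb2)
          omega
        rw [hs, ih _ (by have := key hi; omega) (A \ Ico i (i + r)) B rfl
          (fun a ha => hA a (sdiff_subset ha)) hB]
        congr 1
        funext x
        congr 1
        funext y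
        congr 1
        omega
      have e2 : ∀ j ∈ avail r B, expect r ((A ∪ B) \ Ico j (j + r)) (fun k => φ (k + 1)) =
          expect r A (fun x => expect r (B \ Ico j (j + r)) (fun y => φ (x + (y + 1)))) := by
        intro j hj
        have hj' := hj
        rw [avail, mem_filter] at hj'
        have hs : (A ∪ B) \ Ico j (j + r) = A ∪ (B \ Ico j (j + r)) := by
          rw [union_sdiff_distrib, sdiff_eq_self_of_disjoint (s := A)]
          rw [Finset.disjoint_left]
          intro a ha ha2
          have := hA a ha
          have := hB a (hj'.2 ha2)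
          omega
        rw [hs, ih _ (by have := key hj; omega) A (B \ Ico j (j + r)) rfl hA
          (fun b hb => hB b (sdiff_subset hb))]
        congr 1
      rw [sum_congr rfl e1, sum_congr rfl e2,
        ← card_mul_expect hr A (fun x => expect r B (fun y => φ (x + y))),
        ← expect_sum hr]
      have e3 : ∀ x, ∑ j ∈ avail r B, expect r (B \ Ico j (j + r)) (fun y => φ (x + (y + 1))) =
          ((avail r B).card : ℝ) * expect r B (fun y => φ (x + y)) := fun x =>
        (card_mul_expect hr B (fun y => φ (x + y))).symm
      rw [show (fun k => ∑ j ∈ avail r B, expect r (B \ Ico j (j + r))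
        (fun y => φ (k + (y + 1)))) = fun k => ((avail r B).card : ℝ) *
          expect r B (fun y => φ (k + y)) from funext e3, expect_smul hr]
      push_cast
      ring

end Pool.Agent.Run7.h601.Rsa
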