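import Pool.Agent.Run7.h601.Rsa.Weights

set_option autoImplicit false

/-!
# Linear growth of the solutions of the recursion
-/

namespace Pool.Agent.Run7.h601.Rsa

open Finset Filter Topology

variable {r : ℕ} {a g : ℕ → ℝ}

/-- the recursion for `y n = a n / (n + r)` -/
theorem step_eq
    (h : ∀ m : ℕ, ((m : ℝ) + 1) * a (m + r) = 2 * ∑ j ∈ range (m + 1), a j + g m) {y : ℕ → ℝ}
    (hy : ∀ n : ℕ, a n = ((n : ℝ) + r) * y n) (m : ℕ) :
    ((m : ℝ) + 2) * (m + 2 * r + 1) * (y (m + r + 1) - y (m + r)) =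
      2 * (m + 1 + r) * (y (m + 1) - y (m + r)) + (g (m + 1) - g m) := by
  have h1 := h m
  have h2 := h (m + 1)
  rw [sum_range_succ _ (m + 1)] at h2
  rw [hy (m + r)] at h1
  rw [show m + 1 + r = m + r + 1 by ring, hy (m + r + 1), hy (m + 1)] at h2
  push_cast at h1 h2
  linear_combination h2 - h1

theorem step_le (hr : 0 < r)
    (h : ∀ m : ℕ, ((m : ℝ) + 1) * a (m + r) = 2 * ∑ j ∈ range (m + 1), a j + g m) {y : ℕ → ℝ}
    (hy : ∀ n : ℕ, a n = ((n : ℝ) + r) * y n) (m : ℕ) :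
    |y (m + r + 1) - y (m + r)| ≤
      2 / ((m : ℝ) + 2) * (∑ k ∈ range (r - 1), |y (m + 1 + k + 1) - y (m + 1 + k)|) +
        (|g (m + 1)| + |g m|) := by
  have hr' : (1 : ℝ) ≤ r := by exact_mod_cast hr
  have h1 := step_eq h hy m
  have hm : (0 : ℝ) ≤ m := Nat.cast_nonneg m
  have hP : (0 : ℝ) < ((m : ℝ) + 2) * (m + 2 * r + 1) := by positivity
  have h2 : y (m + r + 1) - y (m + r) = (2 * (m + 1 + r) * (y (m + 1) - y (m + r)) +
      (g (m + 1) - g m)) / (((m : ℝ) + 2) * (m + 2 * r + 1)) := by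
    rw [eq_div_iff hP.ne', ← h1]
    ring
  have h3 : |y (m + 1) - y (m + r)| ≤ ∑ k ∈ range (r - 1), |y (m + 1 + k + 1) - y (m + 1 + k)| := by
    have h4 : y (m + r) - y (m + 1) = ∑ k ∈ range (r - 1), (y (m + 1 + k + 1) - y (m + 1 + k)) := by
      have h5 := Finset.sum_range_sub (fun k => y (m + 1 + k)) (r - 1)
      simp only [add_zero] at h5
      rw [show m + 1 + (r - 1) = m + r by omega] at h5
      rw [← h5]
      rfl
    rw [abs_sub_comm, h4]
    exact Finset.abs_sum_le_sum_abs _ _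
  have h6 : |g (m + 1) - g m| ≤ |g (m + 1)| + |g m| := abs_sub _ _
  rw [h2, abs_div, abs_of_pos hP, div_le_iff₀ hP]
  have h7 : |2 * (m + 1 + r) * (y (m + 1) - y (m + r)) + (g (m + 1) - g m)| ≤
      2 * (m + 1 + r) * |y (m + 1) - y (m + r)| + |g (m + 1) - g m| := by
    refine (abs_add_le _ _).trans ?_
    rw [abs_mul, abs_of_nonneg (by positivity : (0 : ℝ) ≤ 2 * (m + 1 + r))]
  refine h7.trans ?_
  set s := ∑ k ∈ range (r - 1), |y (m + 1 + k + 1) - y (m + 1 + k)| with hs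
  have hs0 : 0 ≤ s := sum_nonneg fun _ _ => abs_nonneg _
  have e1 : (2 / ((m : ℝ) + 2) * s + (|g (m + 1)| + |g m|)) * (((m : ℝ) + 2) * (m + 2 * r + 1)) =
      2 * (m + 2 * r + 1) * s + (|g (m + 1)| + |g m|) * (((m : ℝ) + 2) * (m + 2 * r + 1)) := by
    field_simp
  rw [e1]
  have e2 : 2 * (m + 1 + r) * |y (m + 1) - y (m + r)| ≤ 2 * (m + 2 * r + 1) * s := by
    have : 2 * ((m : ℝ) + 1 + r) * |y (m + 1) - y (m + r)| ≤ 2 * ((m : ℝ) + 1 + r) * s :=
      mul_le_mul_of_nonneg_left h3 (by positivity)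
    refine this.trans (mul_le_mul_of_nonneg_right ?_ hs0)
    linarith
  have hg0 : 0 ≤ |g (m + 1)| + |g m| := by positivity
  have e3 : |g (m + 1) - g m| ≤
      (|g (m + 1)| + |g m|) * (((m : ℝ) + 2) * (m + 2 * r + 1)) := by
    refine h6.trans (le_mul_of_one_le_right hg0 ?_)
    nlinarith
  linarith

/-- geometric decay of the increments of `a n / (n + r)` -/
theorem decay (hr : 0 < r)
    (h : ∀ m : ℕ, ((m : ℝ) + 1) * a (m + r) = 2 * ∑ j ∈ range (m + 1), a j + g m) {y : ℕ → ℝ}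
    (hy : ∀ n : ℕ, a n = ((n : ℝ) + r) * y n) {ρ C : ℝ} (h0 : 0 < ρ) (h1 : ρ < 1) (hC : 0 ≤ C)
    (hg : ∀ m, |g m| ≤ C * ρ ^ m) :
    ∃ D : ℝ, 0 ≤ D ∧ ∀ n, |y (n + 1) - y n| ≤ D * ρ ^ n := by
  obtain ⟨M, hM⟩ := exists_nat_gt (4 * (r : ℝ) / ρ ^ r)
  have hρr : 0 < ρ ^ r := pow_pos h0 r
  set D : ℝ := ∑ n ∈ range (M + r), |y (n + 1) - y n| / ρ ^ n + 4 * C / ρ ^ r with hD
  have hD1 : 0 ≤ ∑ n ∈ range (M + r), |y (n + 1) - y n| / ρ ^ n :=
    sum_nonneg fun n _ => div_nonneg (abs_nonneg _) (pow_pos h0 n).le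
  have hD2 : 0 ≤ 4 * C / ρ ^ r := by positivity
  have hD0 : 0 ≤ D := add_nonneg hD1 hD2
  refine ⟨D, hD0, ?_⟩
  intro n
  induction n using Nat.strong_induction_on with
  | _ n ih =>
    rcases lt_or_ge n (M + r) with hn | hn
    · have h2 : |y (n + 1) - y n| / ρ ^ n ≤ D := by
        refine le_trans ?_ (le_add_of_nonneg_right hD2)
        exact Finset.single_le_sum (f := fun n => |y (n + 1) - y n| / ρ ^ n)
          (fun i _ => div_nonneg (abs_nonneg _) (pow_pos h0 i).le) (mem_range.2 hn)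
      rwa [div_le_iff₀ (pow_pos h0 n)] at h2
    · obtain ⟨m, rfl⟩ : ∃ m, n = m + r := ⟨n - r, by omega⟩
      have hmM : M ≤ m := by omega
      have h2 := step_le hr h hy m
      have h3 : ∑ k ∈ range (r - 1), |y (m + 1 + k + 1) - y (m + 1 + k)| ≤ r * (D * ρ ^ m) := by
        have h4 : ∀ k ∈ range (r - 1), |y (m + 1 + k + 1) - y (m + 1 + k)| ≤ D * ρ ^ m := by
          intro k hk
          rw [mem_range] at hk
          refine (ih (m + 1 + k) (by omega)).trans ?_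
          exact mul_le_mul_of_nonneg_left (pow_le_pow_of_le_one h0.le h1.le (by omega)) hD0
        have h5 := Finset.sum_le_card_nsmul _ _ _ h4
        rw [card_range, nsmul_eq_mul] at h5
        refine h5.trans (mul_le_mul_of_nonneg_right ?_ (by positivity))
        exact_mod_cast Nat.sub_le r 1
      have h6 : |g (m + 1)| + |g m| ≤ 2 * C * ρ ^ m := by
        have e1 := hg (m + 1)
        have e2 := hg m
        have e3 : C * ρ ^ (m + 1) ≤ C * ρ ^ m :=
          mul_le_mul_of_nonneg_left (pow_le_pow_of_le_one h0.le h1.le (by omega)) hC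
        linarith
      have hm : (0 : ℝ) ≤ m := Nat.cast_nonneg m
      have h7 : 2 / ((m : ℝ) + 2) * (r * (D * ρ ^ m)) ≤ (D * ρ ^ m) * (ρ ^ r / 2) := by
        have h8 : 2 / ((m : ℝ) + 2) * r ≤ ρ ^ r / 2 := by
          rw [div_mul_eq_mul_div, div_le_iff₀ (by positivity)]
          have h9 : 4 * (r : ℝ) / ρ ^ r < (m : ℝ) := hM.trans_le (by exact_mod_cast hmM)
          rw [div_lt_iff₀ hρr] at h9
          nlinarith
        have h10 : 0 ≤ D * ρ ^ m := by positivity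
        calc 2 / ((m : ℝ) + 2) * (r * (D * ρ ^ m)) = (D * ρ ^ m) * (2 / ((m : ℝ) + 2) * r) := by ring
          _ ≤ _ := mul_le_mul_of_nonneg_left h8 h10
      have h11 : 2 * C * ρ ^ m ≤ (D * ρ ^ m) * (ρ ^ r / 2) := by
        have h12 : 4 * C ≤ D * ρ ^ r := by
          have : 4 * C / ρ ^ r ≤ D := le_add_of_nonneg_left hD1
          rwa [div_le_iff₀ hρr] at this
        have h13 : 0 ≤ ρ ^ m := by positivity
        nlinarith
      have h14 : 2 / ((m : ℝ) + 2) * (∑ k ∈ range (r - 1), |y (m + 1 + k + 1) - y (m + 1 + k)|) ≤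
          2 / ((m : ℝ) + 2) * (r * (D * ρ ^ m)) :=
        mul_le_mul_of_nonneg_left h3 (by positivity)
      calc |y (m + r + 1) - y (m + r)| ≤ _ := h2
        _ ≤ (D * ρ ^ m) * (ρ ^ r / 2) + (D * ρ ^ m) * (ρ ^ r / 2) := by linarith
        _ = D * ρ ^ (m + r) := by
          rw [pow_add]
          ring

/-- summation by parts -/
theorem parts (hr : 0 < r)
    (h : ∀ m : ℕ, ((m : ℝ) + 1) * a (m + r) = 2 * ∑ j ∈ range (m + 1), a j + g m) (N : ℕ) :
    ∑ m ∈ range N, wt r m * g m + 2 * ∑ i ∈ range r, Tt r i * a i =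
      2 * ∑ k ∈ range r, Tt r (N + k) * a (N + k) + 2 * Tt r N * ∑ j ∈ range N, a j := by
  induction N with
  | zero => simp
  | succ N ih =>
    rw [sum_range_succ]
    have h1 := h N
    have h2 := adj hr N
    have h3 := wt_eq r N
    have h4 : ∑ k ∈ range r, Tt r (N + 1 + k) * a (N + 1 + k) =
        ∑ k ∈ range r, Tt r (N + k) * a (N + k) + Tt r (N + r) * a (N + r) - Tt r N * a N := by
      have h5 := Finset.sum_range_succ' (fun k => Tt r (N + k) * a (N + k)) r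
      rw [Finset.sum_range_succ] at h5
      simp only [add_zero] at h5
      have h6 : ∑ k ∈ range r, Tt r (N + (k + 1)) * a (N + (k + 1)) =
          ∑ k ∈ range r, Tt r (N + 1 + k) * a (N + 1 + k) :=
        sum_congr rfl fun k _ => by rw [show N + (k + 1) = N + 1 + k by ring]
      rw [h6] at h5
      linarith
    rw [h4, sum_range_succ (fun j => a j) N]
    rw [sum_range_succ] at h1
    have h7 : wt r N * g N = 2 * Tt r (N + r) * a (N + r) -
        2 * (Tt r N - Tt r (N + 1)) * (∑ j ∈ range N, a j + a N) := by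
      have h8 : g N = ((N : ℝ) + 1) * a (N + r) - 2 * (∑ j ∈ range N, a j + a N) := by linarith
      rw [h8, mul_sub, ← h3]
      linear_combination (a (N + r)) * h2
    linear_combination ih + h7

/-- the growth of a solution of the recursion -/
theorem slope (hr : 0 < r)
    (h : ∀ m : ℕ, ((m : ℝ) + 1) * a (m + r) = 2 * ∑ j ∈ range (m + 1), a j + g m)
    {ρ C : ℝ} (h0 : 0 < ρ) (h1 : ρ < 1) (hC : 0 ≤ C) (hg : ∀ m, |g m| ≤ C * ρ ^ m) :
    ∃ D : ℝ, 0 ≤ D ∧ ∀ n : ℕ, |a n / ((n : ℝ) + r) -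
      (∑' m, wt r m * g m + 2 * ∑ i ∈ range r, Tt r i * a i)| ≤ D * ρ ^ n := by
  have hr' : (1 : ℝ) ≤ r := by exact_mod_cast hr
  set y : ℕ → ℝ := fun n => a n / ((n : ℝ) + r) with hy
  have hya : ∀ n : ℕ, a n = ((n : ℝ) + r) * y n := by
    intro n
    have : ((n : ℝ) + r) ≠ 0 := by positivity
    simp only [hy]
    field_simp
  obtain ⟨D, hD0, hD⟩ := decay hr h hya h0 h1 hC hg
  have hdist : ∀ n, dist (y n) (y (n + 1)) ≤ D * ρ ^ n := by
    intro n
    rw [dist_comm, Real.dist_eq]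
    exact hD n
  obtain ⟨α, hα⟩ := cauchySeq_tendsto_of_complete (cauchySeq_of_le_geometric ρ D h1 hdist)
  have hbound : ∀ n, |y n - α| ≤ D / (1 - ρ) * ρ ^ n := by
    intro n
    have := dist_le_of_le_geometric_of_tendsto ρ D h1 hdist hα n
    rw [Real.dist_eq] at this
    rw [div_mul_eq_mul_div]
    exact this
  -- the limit of the right-hand side of `parts`
  have hinv : Tendsto (fun N : ℕ => (1 : ℝ) / ((N : ℝ) + 1)) atTop (𝓝 0) :=
    tendsto_one_div_add_atTop_nhds_zero_nat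
  have hTa : Tendsto (fun N : ℕ => Tt r (N + 1) * a (N + 1)) atTop (𝓝 0) := by
    have e1 : Tendsto (fun N : ℕ => (((N : ℝ) + 1) ^ 2 * Tt r (N + 1)) *
        (y (N + 1) * ((1 : ℝ) / ((N : ℝ) + 1) + r * ((1 : ℝ) / ((N : ℝ) + 1)) ^ 2)))
          atTop (𝓝 (1 * (α * (0 + r * 0 ^ 2)))) :=
      (tendsto_sq_Tt r).mul ((hα.comp (tendsto_add_atTop_nat 1)).mul
        (hinv.add ((hinv.pow 2).const_mul (r : ℝ))))
    have e2 : (1 * (α * (0 + (r : ℝ) * 0 ^ 2))) = 0 := by ring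
    rw [e2] at e1
    refine e1.congr fun N => ?_
    rw [hya (N + 1)]
    push_cast
    field_simp
  have hTa0 : Tendsto (fun N : ℕ => Tt r N * a N) atTop (𝓝 0) :=
    (tendsto_add_atTop_iff_nat 1).1 hTa
  have hR1 : Tendsto (fun N : ℕ => 2 * ∑ k ∈ range r, Tt r (N + 1 + k) * a (N + 1 + k))
      atTop (𝓝 0) := by
    have e1 : Tendsto (fun N : ℕ => 2 * ∑ k ∈ range r, Tt r (N + (1 + k)) * a (N + (1 + k)))
        atTop (𝓝 (2 * ∑ k ∈ range r, (0 : ℝ))) :=
      (tendsto_finsetSum _ fun k _ => (tendsto_add_atTop_iff_nat (1 + k)).2 hTa0).const_mul 2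
    rw [sum_const_zero, mul_zero] at e1
    refine e1.congr fun N => ?_
    simp only [add_assoc]
  have hgN : Tendsto (fun N : ℕ => Tt r (N + 1) * g N) atTop (𝓝 0) := by
    refine squeeze_zero_norm (a := fun N : ℕ => C * ρ ^ N) (fun N => ?_) ?_
    · rw [Real.norm_eq_abs, abs_mul, abs_of_nonneg (Tt_nonneg r _)]
      have e1 : Tt r (N + 1) ≤ 1 := by
        refine (Tt_le r (N + 1)).trans ?_
        rw [div_le_one (by positivity)]
        push_cast
        nlinarith [Nat.cast_nonneg (α := ℝ) N]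
      calc Tt r (N + 1) * |g N| ≤ 1 * |g N| := mul_le_mul_of_nonneg_right e1 (abs_nonneg _)
        _ ≤ _ := by rw [one_mul]; exact hg N
    · have := (tendsto_pow_atTop_nhds_zero_of_lt_one h0.le h1).const_mul C
      rwa [mul_zero] at this
  have hR2 : Tendsto (fun N : ℕ => 2 * Tt r (N + 1) * ∑ j ∈ range (N + 1), a j)
      atTop (𝓝 α) := by
    have e1 : Tendsto (fun N : ℕ => (((N : ℝ) + 1) ^ 2 * Tt r (N + 1)) *
        (y (N + r) * (1 + (2 * r - 1) * ((1 : ℝ) / ((N : ℝ) + 1)))) - Tt r (N + 1) * g N)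
          atTop (𝓝 (1 * (α * (1 + (2 * r - 1) * 0)) - 0)) :=
      ((tendsto_sq_Tt r).mul ((hα.comp (tendsto_add_atTop_nat r)).mul
        (tendsto_const_nhds.add (hinv.const_mul (2 * (r : ℝ) - 1))))).sub hgN
    have e2 : (1 * (α * (1 + (2 * (r : ℝ) - 1) * 0)) - 0) = α := by ring
    rw [e2] at e1
    refine e1.congr fun N => ?_
    have e3 := h N
    rw [hya (N + r)] at e3
    push_cast at e3
    have e4 : 2 * Tt r (N + 1) * ∑ j ∈ range (N + 1), a j =
        Tt r (N + 1) * (((N : ℝ) + 1) * (((N : ℝ) + r + r) * y (N + r))) -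
          Tt r (N + 1) * g N := by
      rw [e3]
      ring
    rw [e4]
    congr 1
    field_simp
    ring
  have hsum : Summable fun m => wt r m * g m := by
    refine Summable.of_norm_bounded (g := fun m => C * ρ ^ m)
      ((summable_geometric_of_lt_one h0.le h1).mul_left C) fun m => ?_
    rw [Real.norm_eq_abs, abs_mul, abs_of_nonneg (wt_nonneg r m)]
    calc wt r m * |g m| ≤ 1 * |g m| := mul_le_mul_of_nonneg_right (wt_le_one r m) (abs_nonneg _)
      _ ≤ _ := by rw [one_mul]; exact hg m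
  have hL : Tendsto (fun N : ℕ => ∑ m ∈ range (N + 1), wt r m * g m +
      2 * ∑ i ∈ range r, Tt r i * a i) atTop
        (𝓝 (∑' m, wt r m * g m + 2 * ∑ i ∈ range r, Tt r i * a i)) :=
    ((tendsto_add_atTop_iff_nat 1).2 hsum.hasSum.tendsto_sum_nat).add tendsto_const_nhds
  have hR := hR1.add hR2
  rw [zero_add] at hR
  have huniq : ∑' m, wt r m * g m + 2 * ∑ i ∈ range r, Tt r i * a i = α := by
    refine tendsto_nhds_unique hL (hR.congr fun N => ?_)
    exact (parts hr h (N + 1)).symm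
  refine ⟨D / (1 - ρ), div_nonneg hD0 (by linarith), fun n => ?_⟩
  rw [huniq]
  exact hbound n

end Pool.Agent.Run7.h601.Rsa
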