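import Mathlib

set_option autoImplicit false

/-!
# The weight function and its moments
-/

namespace Pool.Agent.Run7.h601.Rsa

open Finset Filter Topology intervalIntegral

/-- `ε_r (t) = exp (-2 ∑_{k=1}^{r-1} (1 - t ^ k) / k)` -/
noncomputable def eps (r : ℕ) (t : ℝ) : ℝ :=
  Real.exp (-2 * ∑ k ∈ range (r - 1), (1 - t ^ (k + 1)) / ((k : ℝ) + 1))

theorem eps_pos (r : ℕ) (t : ℝ) : 0 < eps r t := Real.exp_pos _

theorem eps_one (r : ℕ) : eps r 1 = 1 := by simp [eps]

theorem hasDerivAt_eps (r : ℕ) (t : ℝ) :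
    HasDerivAt (eps r) (eps r t * (2 * ∑ k ∈ range (r - 1), t ^ k)) t := by
  have h1 : ∀ k ∈ range (r - 1), HasDerivAt (fun t : ℝ => (1 - t ^ (k + 1)) / ((k : ℝ) + 1))
      (-(t ^ k)) t := by
    intro k _
    have h := ((hasDerivAt_pow (k + 1) t).const_sub 1).div_const ((k : ℝ) + 1)
    refine h.congr_deriv ?_
    have : ((k : ℝ) + 1) ≠ 0 := by positivity
    push_cast
    field_simp
  have h2 := (HasDerivAt.fun_sum h1).const_mul (-2 : ℝ)
  have h3 := h2.exp
  refine h3.congr_deriv ?_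
  rw [Finset.sum_neg_distrib, eps]
  ring

theorem continuous_eps (r : ℕ) : Continuous (eps r) :=
  continuous_iff_continuousAt.2 fun t => (hasDerivAt_eps r t).continuousAt

theorem eps_le_one {r : ℕ} {t : ℝ} (h0 : 0 ≤ t) (h1 : t ≤ 1) : eps r t ≤ 1 := by
  rw [eps, Real.exp_le_one_iff]
  have : 0 ≤ ∑ k ∈ range (r - 1), (1 - t ^ (k + 1)) / ((k : ℝ) + 1) := by
    refine sum_nonneg fun k _ => div_nonneg ?_ (by positivity)
    have := pow_le_one₀ (n := k + 1) h0 h1
    linarith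
  linarith

theorem le_eps {r : ℕ} {t : ℝ} (h0 : 0 ≤ t) (h1 : t ≤ 1) : 1 - 2 * r * (1 - t) ≤ eps r t := by
  rw [eps]
  refine le_trans ?_ (Real.add_one_le_exp _)
  have h2 : ∑ k ∈ range (r - 1), (1 - t ^ (k + 1)) / ((k : ℝ) + 1) ≤ r * (1 - t) := by
    have h3 : ∀ k ∈ range (r - 1), (1 - t ^ (k + 1)) / ((k : ℝ) + 1) ≤ 1 - t := by
      intro k _
      rw [div_le_iff₀ (by positivity)]
      have h4 := one_add_mul_le_pow (a := t - 1) (by linarith) (k + 1)
      push_cast at h4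
      have h5 : (1 + (t - 1)) ^ (k + 1) = t ^ (k + 1) := by ring_nf
      rw [h5] at h4
      nlinarith
    have h6 := Finset.sum_le_card_nsmul _ _ _ h3
    rw [card_range, nsmul_eq_mul] at h6
    refine h6.trans ?_
    have : ((r - 1 : ℕ) : ℝ) ≤ r := by exact_mod_cast Nat.sub_le r 1
    nlinarith
  linarith

theorem hasDerivAt_sq_eps {r : ℕ} (t : ℝ) :
    HasDerivAt (fun t : ℝ => (1 - t) ^ 2 * eps r t)
      (-2 * ((1 - t) * eps r t * t ^ (r - 1))) t := by
  have h1 : HasDerivAt (fun t : ℝ => (1 - t) ^ 2) (2 * (1 - t) * (-1)) t := by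
    have := ((hasDerivAt_id t).const_sub 1).fun_pow 2
    refine this.congr_deriv ?_
    simp
  have h2 := h1.fun_mul (hasDerivAt_eps r t)
  refine h2.congr_deriv ?_
  have h3 := mul_neg_geom_sum t (r - 1)
  linear_combination (2 * (1 - t) * eps r t) * h3

theorem hasDerivAt_pow_sq_eps {r : ℕ} (hr : 0 < r) (m : ℕ) (t : ℝ) :
    HasDerivAt (fun t : ℝ => t ^ (m + 1) * ((1 - t) ^ 2 * eps r t))
      (((m : ℝ) + 1) * ((1 - t) ^ 2 * eps r t * t ^ m) -
        2 * ((1 - t) * eps r t * t ^ (m + r))) t := by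
  have h := (hasDerivAt_pow (m + 1) t).fun_mul (hasDerivAt_sq_eps (r := r) t)
  refine h.congr_deriv ?_
  have h2 : t ^ (m + r) = t ^ (m + 1) * t ^ (r - 1) := by
    rw [← pow_add]
    congr 1
    omega
  rw [h2]
  push_cast
  ring_nf

theorem hasDerivAt_lin_eps {r : ℕ} (hr : 0 < r) (t : ℝ) :
    HasDerivAt (fun t : ℝ => t * (1 - t) * eps r t) (eps r t * (1 - 2 * t ^ r)) t := by
  have h1 : HasDerivAt (fun t : ℝ => t * (1 - t)) (1 * (1 - t) + t * (-1)) t :=
    (hasDerivAt_id t).fun_mul ((hasDerivAt_id t).const_sub 1)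
  have h2 := h1.fun_mul (hasDerivAt_eps r t)
  refine h2.congr_deriv ?_
  have h3 := mul_neg_geom_sum t (r - 1)
  have h4 : t ^ r = t * t ^ (r - 1) := by
    rw [← pow_succ']
    congr 1
    omega
  rw [h4]
  linear_combination (2 * t * eps r t) * h3

/-- moments of `(1 - t) ^ 2 ε` -/
noncomputable def wt (r m : ℕ) : ℝ := ∫ t in (0 : ℝ)..1, (1 - t) ^ 2 * eps r t * t ^ m

/-- moments of `(1 - t) ε` -/
noncomputable def Tt (r m : ℕ) : ℝ := ∫ t in (0 : ℝ)..1, (1 - t) * eps r t * t ^ m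

/-- the density of `r`-mers -/
noncomputable def lam (r : ℕ) : ℝ := ∫ t in (0 : ℝ)..1, eps r t

theorem wt_eq (r m : ℕ) : wt r m = Tt r m - Tt r (m + 1) := by
  have hc := continuous_eps r
  rw [wt, Tt, Tt, ← integral_sub]
  · congr 1
    funext t
    ring
  · exact (Continuous.intervalIntegrable (by fun_prop) _ _)
  · exact (Continuous.intervalIntegrable (by fun_prop) _ _)

theorem adj {r : ℕ} (hr : 0 < r) (m : ℕ) : ((m : ℝ) + 1) * wt r m = 2 * Tt r (m + r) := by
  have hc := continuous_eps r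
  have h := integral_eq_sub_of_hasDerivAt (a := 0) (b := 1)
    (fun t _ => hasDerivAt_pow_sq_eps hr m t)
    (Continuous.intervalIntegrable (by fun_prop) _ _)
  rw [integral_sub, integral_const_mul, integral_const_mul] at h
  · simp at h
    rw [wt, Tt]
    linarith
  · exact (Continuous.intervalIntegrable (by fun_prop) _ _)
  · exact (Continuous.intervalIntegrable (by fun_prop) _ _)

theorem two_sum_Tt {r : ℕ} (hr : 0 < r) : 2 * ∑ i ∈ range r, Tt r i = lam r := by
  have hc := continuous_eps r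
  have h := integral_eq_sub_of_hasDerivAt (a := 0) (b := 1)
    (fun t _ => hasDerivAt_lin_eps hr t)
    (Continuous.intervalIntegrable (by fun_prop) _ _)
  have h1 : ∑ i ∈ range r, Tt r i = ∫ t in (0 : ℝ)..1, eps r t * (1 - t ^ r) := by
    simp only [Tt]
    rw [← integral_finsetSum]
    · congr 1
      funext t
      rw [← mul_neg_geom_sum t r, mul_sum, mul_sum]
      refine sum_congr rfl fun i _ => ?_
      ring
    · intro i _
      exact (Continuous.intervalIntegrable (by fun_prop) _ _)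
  have h2 : ∫ t in (0 : ℝ)..1, (2 * (eps r t * (1 - t ^ r)) - eps r t) =
      ∫ t in (0 : ℝ)..1, eps r t * (1 - 2 * t ^ r) := by
    congr 1
    funext t
    ring
  rw [integral_sub, integral_const_mul, h] at h2
  · simp at h2
    rw [h1, lam]
    linarith
  · exact (Continuous.intervalIntegrable (by fun_prop) _ _)
  · exact (Continuous.intervalIntegrable (by fun_prop) _ _)

theorem beta_one (m : ℕ) : ∫ t in (0 : ℝ)..1, (1 - t) * t ^ m = 1 / (((m : ℝ) + 1) * (m + 2)) := by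
  have h : ∀ t : ℝ, (1 - t) * t ^ m = t ^ m - t ^ (m + 1) := fun t => by ring
  simp only [h]
  rw [integral_sub, integral_pow, integral_pow]
  · have h1 : ((m : ℝ) + 1) ≠ 0 := by positivity
    have h2 : ((m : ℝ) + 2) ≠ 0 := by positivity
    push_cast
    simp
    rw [show ((m : ℝ) + 1 + 1) = m + 2 by ring]
    field_simp
    ring
  · exact (Continuous.intervalIntegrable (by fun_prop) _ _)
  · exact (Continuous.intervalIntegrable (by fun_prop) _ _)

theorem beta_two (m : ℕ) : ∫ t in (0 : ℝ)..1, (1 - t) ^ 2 * t ^ m =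
    2 / (((m : ℝ) + 1) * (m + 2) * (m + 3)) := by
  have h : ∀ t : ℝ, (1 - t) ^ 2 * t ^ m = (1 - t) * t ^ m - (1 - t) * t ^ (m + 1) :=
    fun t => by ring
  simp only [h]
  rw [integral_sub, beta_one, beta_one]
  · have h1 : ((m : ℝ) + 1) ≠ 0 := by positivity
    have h2 : ((m : ℝ) + 2) ≠ 0 := by positivity
    have h3 : ((m : ℝ) + 3) ≠ 0 := by positivity
    push_cast
    rw [show ((m : ℝ) + 1 + 1) = m + 2 by ring, show ((m : ℝ) + 1 + 2) = m + 3 by ring]
    field_simp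
    ring
  · exact (Continuous.intervalIntegrable (by fun_prop) _ _)
  · exact (Continuous.intervalIntegrable (by fun_prop) _ _)

theorem Tt_le (r m : ℕ) : Tt r m ≤ 1 / (((m : ℝ) + 1) * (m + 2)) := by
  have hc := continuous_eps r
  rw [← beta_one, Tt]
  refine integral_mono_on (by norm_num) (Continuous.intervalIntegrable (by fun_prop) _ _)
    (Continuous.intervalIntegrable (by fun_prop) _ _) fun t ht => ?_
  have h1 := eps_le_one (r := r) ht.1 ht.2
  have h2 : 0 ≤ (1 - t) * t ^ m := mul_nonneg (by linarith [ht.2]) (pow_nonneg ht.1 _)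
  nlinarith

theorem le_Tt (r m : ℕ) : 1 / (((m : ℝ) + 1) * (m + 2)) -
    2 * r * (2 / (((m : ℝ) + 1) * (m + 2) * (m + 3))) ≤ Tt r m := by
  have hc := continuous_eps r
  rw [← beta_one, ← beta_two, Tt, ← integral_const_mul, ← integral_sub]
  · refine integral_mono_on (by norm_num) (Continuous.intervalIntegrable (by fun_prop) _ _)
      (Continuous.intervalIntegrable (by fun_prop) _ _) fun t ht => ?_
    have h1 := le_eps (r := r) ht.1 ht.2
    have h2 : 0 ≤ (1 - t) * t ^ m := mul_nonneg (by linarith [ht.2]) (pow_nonneg ht.1 _)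
    nlinarith
  · exact (Continuous.intervalIntegrable (by fun_prop) _ _)
  · exact (Continuous.intervalIntegrable (by fun_prop) _ _)

theorem wt_nonneg (r m : ℕ) : 0 ≤ wt r m := by
  rw [wt]
  refine integral_nonneg (by norm_num) fun t ht => ?_
  exact mul_nonneg (mul_nonneg (sq_nonneg _) (eps_pos r t).le) (pow_nonneg ht.1 _)

theorem Tt_nonneg (r m : ℕ) : 0 ≤ Tt r m := by
  rw [Tt]
  refine integral_nonneg (by norm_num) fun t ht => ?_
  exact mul_nonneg (mul_nonneg (by linarith [ht.2]) (eps_pos r t).le) (pow_nonneg ht.1 _)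

theorem wt_le_one (r m : ℕ) : wt r m ≤ 1 := by
  rw [wt_eq]
  have h1 := Tt_le r m
  have h2 := Tt_nonneg r (m + 1)
  have h3 : 1 / (((m : ℝ) + 1) * (m + 2)) ≤ 1 := by
    rw [div_le_one (by positivity)]
    nlinarith [Nat.cast_nonneg (α := ℝ) m]
  linarith

theorem tendsto_sq_Tt (r : ℕ) :
    Tendsto (fun N : ℕ => ((N : ℝ) + 1) ^ 2 * Tt r (N + 1)) atTop (𝓝 1) := by
  have hN : Tendsto (fun N : ℕ => (1 : ℝ) / ((N : ℝ) + 1)) atTop (𝓝 0) :=
    tendsto_one_div_add_atTop_nhds_zero_nat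
  -- with `u = 1 / (N + 1)`
  have hup : Tendsto (fun N : ℕ => 1 / ((1 + (1 : ℝ) / ((N : ℝ) + 1)) *
      (1 + 2 * ((1 : ℝ) / ((N : ℝ) + 1))))) atTop (𝓝 1) := by
    have : (𝓝 (1 : ℝ)) = 𝓝 (1 / ((1 + 0) * (1 + 2 * 0))) := by norm_num
    rw [this]
    exact tendsto_const_nhds.div ((tendsto_const_nhds.add hN).mul
      (tendsto_const_nhds.add (hN.const_mul 2))) (by norm_num)
  have hlow : Tendsto (fun N : ℕ => 1 / ((1 + (1 : ℝ) / ((N : ℝ) + 1)) *
      (1 + 2 * ((1 : ℝ) / ((N : ℝ) + 1)))) - 4 * r * ((1 : ℝ) / ((N : ℝ) + 1))) atTop (𝓝 1) := by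
    have := hup.sub (hN.const_mul (4 * (r : ℝ)))
    simpa using this
  refine tendsto_of_tendsto_of_tendsto_of_le_of_le hlow hup (fun N => ?_) (fun N => ?_)
  · have h := le_Tt r (N + 1)
    push_cast at h
    have hp : (0 : ℝ) < (N : ℝ) + 1 := by positivity
    have h2 := mul_le_mul_of_nonneg_left h (sq_nonneg ((N : ℝ) + 1))
    refine le_trans ?_ h2
    rw [mul_sub]
    have e1 : 1 / ((1 + (1 : ℝ) / ((N : ℝ) + 1)) * (1 + 2 * ((1 : ℝ) / ((N : ℝ) + 1)))) =
        ((N : ℝ) + 1) ^ 2 * (1 / (((N : ℝ) + 1 + 1) * ((N : ℝ) + 1 + 2))) := by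
      field_simp
    rw [e1]
    refine sub_le_sub_left ?_ _
    have hr0 : (0 : ℝ) ≤ r := Nat.cast_nonneg r
    have e2 : ((N : ℝ) + 1) ^ 2 * (2 * r * (2 / (((N : ℝ) + 1 + 1) * ((N : ℝ) + 1 + 2) *
        ((N : ℝ) + 1 + 3)))) = 4 * r * (((N : ℝ) + 1) ^ 2 / (((N : ℝ) + 1 + 1) *
          ((N : ℝ) + 1 + 2) * ((N : ℝ) + 1 + 3))) := by
      ring
    rw [e2]
    refine mul_le_mul_of_nonneg_left ?_ (by positivity)
    rw [div_le_div_iff₀ (by positivity) hp]
    nlinarith [Nat.cast_nonneg (α := ℝ) N, sq_nonneg ((N : ℝ)), pow_nonneg (Nat.cast_nonneg (α := ℝ) N) 3]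
  · have h := Tt_le r (N + 1)
    push_cast at h
    have h2 := mul_le_mul_of_nonneg_left h (sq_nonneg ((N : ℝ) + 1))
    refine le_trans h2 (le_of_eq ?_)
    field_simp

end Pool.Agent.Run7.h601.Rsa
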